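import Pool.Agent.H12.FB.Par
import Pool.Agent.H48.OW.Sgo

/-!
# [H82 OW PAR] uniform parameters for all classes (MP_b39724_nt, theorem OW, assembly)

`parw`: for a finite `p`-group `P` there are parameters `Pa` (class and precisions), `κ`, `c₀`, `mm`, `k₀` such that for all `c` there is `G : SG c (Sp Pa (Px c))` with `Siz`, and `Siz`
also holds for the groups with `M ≤ c₀` own letters. No condition on `c`; `p = 2` is included.
-/

set_option autoImplicit false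

open scoped NumberField commutatorElement
open IsDedekindDomain Filter Topology
open scoped Classical

noncomputable section

namespace H82.OW

open H77.PC3 H35.UB H77.S3 H71.S3 H1.S3 H73.S3 H12.S3 H51.F3 H12.FB H48.OW

attribute [local instance 50] Fintype.ofFinite

theorem ppr {p : ℕ} {P : Type} [Group P] (hP : IsPGroup p P) (M : ℕ) : IsPGroup p (P × Ci p M) := by
  rintro ⟨a, b⟩
  obtain ⟨n, hn⟩ := hP a
  refine ⟨n + 1, Prod.ext ?_ ?_⟩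
  · show a ^ p ^ (n + 1) = 1
    rw [pow_succ, pow_mul, hn, one_pow]
  · show b ^ p ^ (n + 1) = 1
    rw [pow_succ, mul_comm, pow_mul, ci_pow, one_pow]

/-- one group -/
theorem siz_of {p : ℕ} (hp : p.Prime) (Pa : H82.S3.Par) (hPp : Pa.p = p) {κ : ℕ} (hκ : κ = Pa.M 1)
    {C CP mm k : ℕ} (hmm : Pa.c + C * (CP * (p ^ κ) ^ C) + CP * (p ^ κ) ^ C ≤ mm)
    (hk : CP * C ^ 2 * p ^ κ + H93.BX.Mx (p ^ κ) mm ≤ k) {P' : Type} [Group P'] [Finite P']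
    (hP' : IsPGroup p P') (hc : Nat.card P' ≤ CP) {α : Type} [Finite α]
    (hS : Nat.card (H82.S3.Sp Pa α) ≤ C) : Siz p κ Pa.c mm k P' (H82.S3.Sp Pa α) := by
  have hpκ : 0 < p ^ κ := pow_pos hp.pos _
  have hpow : (p ^ κ) ^ Nat.card (H82.S3.Sp Pa α) ≤ (p ^ κ) ^ C := Nat.pow_le_pow_right hpκ hS
  have hkk : k ≤ p ^ k := Nat.le_of_lt (Nat.lt_pow_self hp.one_lt)
  refine ⟨hP', ?_, Pa.hc, ?_, fun s => ?_, ?_, ?_, ?_, ?_, ?_⟩
  · have := H82.S3.sp_pgroup Pa (α := α)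
    rwa [hPp] at this
  · show Pool.Agent.H61.Tu.gam (H82.S3.Sp Pa α) (Pa.c + 1 - 1) = ⊥
    rw [Nat.add_sub_cancel]
    exact H82.S3.gam_c Pa
  · have h9 := H82.S3.sp_pow Pa s
    have h10 : Pa.q 0 = p ^ κ := by
      show Pa.p ^ Pa.M 1 = p ^ κ
      rw [hκ, hPp]
    rwa [h10] at h9
  · omega
  · calc Nat.card (H82.S3.Sp Pa α) * (Nat.card P' * (p ^ κ) ^ Nat.card (H82.S3.Sp Pa α))
        ≤ C * (CP * (p ^ κ) ^ C) := Nat.mul_le_mul hS (Nat.mul_le_mul hc hpow)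
      _ ≤ mm := by omega
  · calc Nat.card P' * (p ^ κ) ^ Nat.card (H82.S3.Sp Pa α) ≤ CP * (p ^ κ) ^ C :=
          Nat.mul_le_mul hc hpow
      _ ≤ mm := by omega
  · calc Nat.card P' * Nat.card (H82.S3.Sp Pa α) ^ 2 * p ^ κ ≤ CP * C ^ 2 * p ^ κ :=
          Nat.mul_le_mul (Nat.mul_le_mul hc (Nat.pow_le_pow_left hS 2)) le_rfl
      _ ≤ k := by omega
      _ ≤ p ^ k := hkk
  · calc H93.BX.Mx (p ^ κ) mm ≤ k := by omega
      _ ≤ p ^ k := hkk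

theorem card_ex (Pa : H82.S3.Par) (P : Type) [Finite P] : ∃ C : ℕ, ∀ U : Set P,
    Nat.card (H82.S3.Sp Pa {x : P // x ∈ U}) ≤ C := by
  obtain ⟨C, hC⟩ := (Set.finite_range fun U : Set P =>
    Nat.card (H82.S3.Sp Pa {x : P // x ∈ U})).bddAbove
  exact ⟨C, fun U => hC ⟨U, rfl⟩⟩

/-- the order of the group of the own indices -/
theorem ci_card {p : ℕ} (hp : p.Prime) (M : ℕ) : Nat.card (Ci p M) = p ^ M := by
  have : NeZero p := ⟨hp.ne_zero⟩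
  have h1 : Nat.card (Ci p M) = Nat.card (Fin M → ZMod p) := rfl
  rw [h1, Nat.card_fun, Nat.card_zmod, Nat.card_fin]

theorem parw (p : ℕ) (hp : p.Prime) (P : Type) [Group P] [Fintype P] (hP : IsPGroup p P) :
    ∃ (Pa : H82.S3.Par) (κ mm k₀ : ℕ), Pa.p = p ∧ κ = Pa.M 1 ∧ p ∣ Pa.p ^ Pa.M Pa.c ∧
      (∀ t : P, t ^ (Pa.p ^ Pa.M Pa.c) = 1) ∧ ∀ (N : ℕ) (c : CL p N P),
      Pool.Agent.H61.Tu.gam (H82.S3.TL c) Pa.c = ⊥ ∧
      (∃ G : SG c (H82.S3.Sp Pa (Px c)), (∀ x, G.y x = H82.S3.sy Pa x) ∧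
        (∀ u, G.pi u ∈ H82.S3.TL c) ∧ Tg G = Tc c) ∧ ∀ k : ℕ, k₀ ≤ k →
        Siz p κ Pa.c mm k P (H82.S3.Sp Pa (Px c)) ∧ ∀ M : ℕ, M ≤ Pa.c →
          Siz p κ Pa.c mm k (P × Ci p M) (H82.S3.Sp Pa (Px (cO hp c M))) := by
  have hpf : Fact p.Prime := ⟨hp⟩
  have hnz : NeZero p := ⟨hp.ne_zero⟩
  obtain ⟨r, hr⟩ := IsPGroup.iff_card.1 hP
  have hexp : ∀ t : P, t ^ (p ^ (r + 1)) = 1 := fun t => by
    rw [pow_succ, pow_mul, ← hr, pow_card_eq_one', one_pow]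
  have hnil : Group.IsNilpotent P := hP.isNilpotent
  obtain ⟨n, hn⟩ := Subgroup.nilpotent_iff_lowerCentralSeries.1 hnil
  obtain ⟨cc, hcc⟩ : ∃ cc : ℕ, cc = n + 1 := ⟨_, rfl⟩
  have hc1 : 1 ≤ cc := by omega
  obtain ⟨Pa, hPa⟩ : ∃ Pa : H82.S3.Par, Pa = H82.S3.mkPar p hp cc hc1 (r + 1) := ⟨_, rfl⟩
  have hPp : Pa.p = p := by rw [hPa]; rfl
  have hPc : Pa.c = cc := by rw [hPa]; rfl
  have hPM : Pa.M Pa.c = r + 1 := by rw [hPa]; exact H82.S3.mkPar_top p hp cc hc1 (r + 1)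
  have hTL : ∀ (N : ℕ) (c : CL p N P), Pool.Agent.H61.Tu.gam (H82.S3.TL c) cc = ⊥ := by
    intro N c
    rw [H82.S3.tl_eq, eq_bot_iff]
    intro x hx
    have h1 : ((x : Tc c) : P) ∈ Subgroup.lowerCentralSeries (⊤ : Subgroup P) cc := by
      have h2 := Pool.Agent.H61.Tu.gam_map (Tc c).subtype cc hx
      exact h2
    have h3 : ((x : Tc c) : P) ∈ Subgroup.lowerCentralSeries (⊤ : Subgroup P) n :=
      Subgroup.lowerCentralSeries_antitone _ (by omega) h1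
    rw [hn, Subgroup.mem_bot] at h3
    rw [Subgroup.mem_bot]
    exact Subtype.ext h3
  -- the bound for the orders
  choose F hF using fun M : ℕ => card_ex Pa (P × Ci p M)
  obtain ⟨C0, hC0⟩ := card_ex Pa P
  obtain ⟨C, hC⟩ : ∃ C : ℕ, C = C0 + ∑ M ∈ Finset.range (cc + 1), F M := ⟨_, rfl⟩
  have hCM : ∀ M ≤ cc, F M ≤ C := by
    intro M hM
    rw [hC]
    exact (Finset.single_le_sum (f := F) (fun _ _ => Nat.zero_le _)
      (Finset.mem_range.2 (by omega))).trans (Nat.le_add_left _ _)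
  obtain ⟨CP, hCP⟩ : ∃ CP : ℕ, CP = Nat.card P * p ^ cc := ⟨_, rfl⟩
  obtain ⟨κ, hκ⟩ : ∃ κ : ℕ, κ = Pa.M 1 := ⟨_, rfl⟩
  obtain ⟨mm, hmm⟩ : ∃ mm : ℕ, mm = Pa.c + C * (CP * (p ^ κ) ^ C) + CP * (p ^ κ) ^ C := ⟨_, rfl⟩
  obtain ⟨k₀, hk₀⟩ : ∃ k₀ : ℕ, k₀ = CP * C ^ 2 * p ^ κ + H93.BX.Mx (p ^ κ) mm := ⟨_, rfl⟩
  refine ⟨Pa, κ, mm, k₀, hPp, hκ, ?_, fun t => ?_, fun N c => ⟨?_, ?_, fun k hk => ⟨?_, fun M hM => ?_⟩⟩⟩
  · rw [hPp, hPM]
    exact dvd_pow_self p (Nat.succ_ne_zero r)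
  · rw [hPp, hPM]
    exact hexp t
  · rw [hPc]
    exact hTL N c
  · obtain ⟨G, hG1, hG2⟩ := H82.S3.sg_exists (c := c) Pa (by rw [hPc]; exact hTL N c)
      (fun t _ => by rw [hPp, hPM]; exact hexp t)
    refine ⟨G, hG1, hG2, ?_⟩
    have h1 : Tg G = H82.S3.TL c := by
      apply le_antisymm
      · rintro _ ⟨u, rfl⟩
        exact hG2 u
      · unfold H82.S3.TL
        rw [Subgroup.closure_le]
        rintro _ ⟨x, rfl⟩
        exact ⟨G.y x, G.pi_y x⟩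
    rw [h1]
    exact H82.S3.tl_eq
  · refine siz_of hp Pa hPp hκ (le_of_eq hmm.symm) (by omega) hP ?_ ?_
    · rw [hCP]
      exact Nat.le_mul_of_pos_right _ (pow_pos hp.pos _)
    · refine (hC0 {x | ∃ i, IsConj x (c.g i)}).trans ?_
      rw [hC]
      exact Nat.le_add_right _ _
  · refine siz_of hp Pa hPp hκ (le_of_eq hmm.symm) (by omega) (ppr hP M) ?_ ?_
    · rw [Nat.card_prod, ci_card hp, hCP]
      exact Nat.mul_le_mul le_rfl (Nat.pow_le_pow_right hp.pos (by rw [← hPc]; exact hM))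
    · exact (hF M {x | ∃ i, IsConj x ((cO hp c M).g i)}).trans (hCM M (by rw [← hPc]; exact hM))

end H82.OW
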