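import Pool.Agent.H82.OW.Fin
import Pool.Agent.H48.OW.Bx2

/-!
# [H82 OW BXA] the box inequality with two layers for all data (MP_b39724_nt, theorem OW)
-/

set_option autoImplicit false

noncomputable section

namespace H82.OW

/-- `Bx2A` for all primes -/
theorem bx2a (p : ℕ) (hp : p.Prime) : Bx2A p hp := by
  intro P _ _ hP Pa κ mm k n _ N c G hPr K _ ζ hζ z D Q A B hB
  exact H48.OW.bx2h hp hζ B G hPr hB

end H82.OW
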